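import Mathlib

/-! Two-point inequality for the symmetrization argument (MP_fcf2b0_co). -/

namespace Pool.Agent.R309.HF

open Real

/-- `p cosh(pt) sinh t - sinh(pt) cosh t ≥ 0` for `t ≥ 0`, `p ≥ 1`. -/
lemma aux_G {p : ℝ} (hp : 1 ≤ p) {t : ℝ} (ht : 0 ≤ t) :
    0 ≤ p * cosh (p * t) * sinh t - sinh (p * t) * cosh t := by
  let g : ℝ → ℝ := fun t => p * cosh (p * t) * sinh t - sinh (p * t) * cosh t
  have hg : ∀ x, HasDerivAt g ((p ^ 2 - 1) * (sinh (p * x) * sinh x)) x := by
    intro x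
    have h0 : HasDerivAt (fun x : ℝ => p * x) p x := by
      simpa using (hasDerivAt_id x).const_mul p
    have h1 := h0.cosh
    have h2 := h0.sinh
    have h3 := hasDerivAt_sinh x
    have h4 := hasDerivAt_cosh x
    have h5 := ((h1.const_mul p).mul h3).sub (h2.mul h4)
    refine h5.congr_deriv ?_
    ring
  have hmono : MonotoneOn g (Set.Ici 0) := by
    apply monotoneOn_of_deriv_nonneg (convex_Ici 0)
    · exact fun x _ => (hg x).continuousAt.continuousWithinAt
    · exact fun x _ => (hg x).differentiableAt.differentiableWithinAt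
    · intro x hx
      rw [interior_Ici, Set.mem_Ioi] at hx
      rw [(hg x).deriv]
      have : 0 ≤ sinh (p * x) := sinh_nonneg_iff.2 (by positivity)
      have : 0 ≤ sinh x := sinh_nonneg_iff.2 hx.le
      have : 0 ≤ p ^ 2 - 1 := by nlinarith
      positivity
  have := hmono (Set.mem_Ici.2 le_rfl) (Set.mem_Ici.2 ht) ht
  simpa [g] using this

/-- `sinh(pt)/sinh t` is monotone on `(0,∞)`. -/
lemma ratio_mono {p : ℝ} (hp : 1 ≤ p) :
    MonotoneOn (fun t : ℝ => sinh (p * t) / sinh t) (Set.Ioi 0) := by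
  have hg : ∀ x : ℝ, 0 < x → HasDerivAt (fun t : ℝ => sinh (p * t) / sinh t)
      ((cosh (p * x) * p * sinh x - sinh (p * x) * cosh x) / sinh x ^ 2) x := by
    intro x hx
    have h0 : HasDerivAt (fun x : ℝ => p * x) p x := by
      simpa using (hasDerivAt_id x).const_mul p
    exact h0.sinh.div (hasDerivAt_sinh x) (ne_of_gt (sinh_pos_iff.2 hx))
  apply monotoneOn_of_deriv_nonneg (convex_Ioi 0)
  · exact fun x hx => (hg x hx).continuousAt.continuousWithinAt
  · exact fun x hx => (hg x (by simpa using hx)).differentiableAt.differentiableWithinAt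
  · intro x hx
    rw [interior_Ioi, Set.mem_Ioi] at hx
    rw [(hg x hx).deriv]
    have := aux_G hp hx.le
    apply div_nonneg _ (by positivity)
    linarith [this]

lemma ratio2_mono {p : ℝ} (hp : 1 ≤ p) :
    Monotone (fun t : ℝ => sinh (p * t) / cosh t) := by
  have hg : ∀ x : ℝ, HasDerivAt (fun t : ℝ => sinh (p * t) / cosh t)
      ((cosh (p * x) * p * cosh x - sinh (p * x) * sinh x) / cosh x ^ 2) x := by
    intro x
    have h0 : HasDerivAt (fun x : ℝ => p * x) p x := by
      simpa using (hasDerivAt_id x).const_mul p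
    exact h0.sinh.div (hasDerivAt_cosh x) (ne_of_gt (cosh_pos x))
  apply monotone_of_deriv_nonneg
  · exact fun x => (hg x).differentiableAt
  · intro x
    rw [(hg x).deriv]
    apply div_nonneg _ (by positivity)
    have h1 : |sinh (p * x)| ≤ cosh (p * x) := by
      rw [abs_le]
      constructor
      · have := Real.cosh_add_sinh (p * x); have := exp_pos (p * x); linarith
      · have := Real.cosh_sub_sinh (p * x); have := exp_pos (-(p * x)); linarith
    have h2 : |sinh x| ≤ cosh x := by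
      rw [abs_le]
      constructor
      · have := Real.cosh_add_sinh x; have := exp_pos x; linarith
      · have := Real.cosh_sub_sinh x; have := exp_pos (-x); linarith
    have h3 : sinh (p * x) * sinh x ≤ cosh (p * x) * cosh x := by
      calc sinh (p * x) * sinh x ≤ |sinh (p * x) * sinh x| := le_abs_self _
        _ = |sinh (p * x)| * |sinh x| := abs_mul _ _
        _ ≤ _ := mul_le_mul h1 h2 (abs_nonneg _) (cosh_pos _).le
    have h4 : cosh (p * x) * cosh x ≤ cosh (p * x) * p * cosh x := by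
      have : 0 < cosh (p * x) * cosh x := mul_pos (cosh_pos _) (cosh_pos _)
      nlinarith
    linarith

/-- tangent inequality, cosh version -/
lemma tangent_cosh {p : ℝ} (hp : 1 ≤ p) {s t : ℝ} (hs : 0 < s) (ht : 0 ≤ t) :
    cosh (p * s) + p * (sinh (p * s) / sinh s) * (cosh t - cosh s) ≤ cosh (p * t) := by
  set K := p * (sinh (p * s) / sinh s) with hK
  let f : ℝ → ℝ := fun t => cosh (p * t) - K * cosh t
  have hf : ∀ x, HasDerivAt f (sinh (p * x) * p - K * sinh x) x := by
    intro x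
    have h0 : HasDerivAt (fun x : ℝ => p * x) p x := by
      simpa using (hasDerivAt_id x).const_mul p
    exact h0.cosh.sub ((hasDerivAt_cosh x).const_mul K)
  have key : f s ≤ f t := by
    rcases le_total t s with h | h
    · have : AntitoneOn f (Set.Icc 0 s) := by
        apply antitoneOn_of_deriv_nonpos (convex_Icc 0 s)
        · exact fun x _ => (hf x).continuousAt.continuousWithinAt
        · exact fun x _ => (hf x).differentiableAt.differentiableWithinAt
        · intro x hx
          rw [interior_Icc] at hx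
          rw [(hf x).deriv]
          have hx0 : 0 < sinh x := sinh_pos_iff.2 hx.1
          have := ratio_mono hp (Set.mem_Ioi.2 hx.1) (Set.mem_Ioi.2 hs) hx.2.le
          simp only at this
          have h2 : sinh (p * x) ≤ sinh (p * s) / sinh s * sinh x := by
            rwa [div_le_iff₀ hx0] at this
          have : p * sinh (p * x) ≤ K * sinh x := by
            rw [hK, mul_assoc]
            exact mul_le_mul_of_nonneg_left h2 (by linarith)
          linarith
      exact this ⟨ht, h⟩ ⟨hs.le, le_rfl⟩ h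
    · have : MonotoneOn f (Set.Ici s) := by
        apply monotoneOn_of_deriv_nonneg (convex_Ici s)
        · exact fun x _ => (hf x).continuousAt.continuousWithinAt
        · exact fun x _ => (hf x).differentiableAt.differentiableWithinAt
        · intro x hx
          rw [interior_Ici, Set.mem_Ioi] at hx
          rw [(hf x).deriv]
          have hxp : 0 < x := hs.trans hx
          have hx0 : 0 < sinh x := sinh_pos_iff.2 hxp
          have := ratio_mono hp (Set.mem_Ioi.2 hs) (Set.mem_Ioi.2 hxp) hx.le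
          simp only at this
          have h2 : sinh (p * s) / sinh s * sinh x ≤ sinh (p * x) := by
            rwa [le_div_iff₀ hx0] at this
          have : K * sinh x ≤ p * sinh (p * x) := by
            rw [hK, mul_assoc]
            exact mul_le_mul_of_nonneg_left h2 (by linarith)
          linarith
      exact this (Set.mem_Ici.2 le_rfl) (Set.mem_Ici.2 h) h
  simp only [f] at key
  linarith

/-- tangent inequality, sinh version -/
lemma tangent_sinh {p : ℝ} (hp : 1 ≤ p) (s t : ℝ) :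
    cosh (p * s) + p * (sinh (p * s) / cosh s) * (sinh t - sinh s) ≤ cosh (p * t) := by
  set K := p * (sinh (p * s) / cosh s) with hK
  let f : ℝ → ℝ := fun t => cosh (p * t) - K * sinh t
  have hf : ∀ x, HasDerivAt f (sinh (p * x) * p - K * cosh x) x := by
    intro x
    have h0 : HasDerivAt (fun x : ℝ => p * x) p x := by
      simpa using (hasDerivAt_id x).const_mul p
    exact h0.cosh.sub ((hasDerivAt_sinh x).const_mul K)
  have key : f s ≤ f t := by
    rcases le_total t s with h | h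
    · have : AntitoneOn f (Set.Iic s) := by
        apply antitoneOn_of_deriv_nonpos (convex_Iic s)
        · exact fun x _ => (hf x).continuousAt.continuousWithinAt
        · exact fun x _ => (hf x).differentiableAt.differentiableWithinAt
        · intro x hx
          rw [interior_Iic, Set.mem_Iio] at hx
          rw [(hf x).deriv]
          have hx0 : 0 < cosh x := cosh_pos x
          have := ratio2_mono hp hx.le
          simp only at this
          have h2 : sinh (p * x) ≤ sinh (p * s) / cosh s * cosh x := by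
            rwa [div_le_iff₀ hx0] at this
          have : p * sinh (p * x) ≤ K * cosh x := by
            rw [hK, mul_assoc]
            exact mul_le_mul_of_nonneg_left h2 (by linarith)
          linarith
      exact this (Set.mem_Iic.2 h) (Set.mem_Iic.2 le_rfl) h
    · have : MonotoneOn f (Set.Ici s) := by
        apply monotoneOn_of_deriv_nonneg (convex_Ici s)
        · exact fun x _ => (hf x).continuousAt.continuousWithinAt
        · exact fun x _ => (hf x).differentiableAt.differentiableWithinAt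
        · intro x hx
          rw [interior_Ici, Set.mem_Ioi] at hx
          rw [(hf x).deriv]
          have hx0 : 0 < cosh x := cosh_pos x
          have := ratio2_mono hp hx.le
          simp only at this
          have h2 : sinh (p * s) / cosh s * cosh x ≤ sinh (p * x) := by
            rwa [le_div_iff₀ hx0] at this
          have : K * cosh x ≤ p * sinh (p * x) := by
            rw [hK, mul_assoc]
            exact mul_le_mul_of_nonneg_left h2 (by linarith)
          linarith
      exact this (Set.mem_Ici.2 le_rfl) (Set.mem_Ici.2 h) h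
  simp only [f] at key
  linarith

lemma conv_cosh {p : ℝ} (hp : 1 ≤ p) {t₁ t₂ t : ℝ}
    (h : cosh t = (cosh t₁ + cosh t₂) / 2) :
    cosh (p * t) ≤ (cosh (p * t₁) + cosh (p * t₂)) / 2 := by
  wlog ht : 0 ≤ t generalizing t with H
  · have := @H (-t) (by rw [cosh_neg]; exact h) (by linarith)
    rwa [mul_neg, cosh_neg] at this
  wlog ht1 : 0 ≤ t₁ generalizing t₁ with H
  · have := @H (-t₁) (by rw [cosh_neg]; exact h) (by linarith)
    rwa [mul_neg, cosh_neg] at this
  wlog ht2 : 0 ≤ t₂ generalizing t₂ with H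
  · have := @H (-t₂) (by rw [cosh_neg]; exact h) (by linarith)
    rwa [mul_neg, cosh_neg] at this
  rcases ht.eq_or_lt with h0 | h0
  · subst h0
    have := one_le_cosh (p * t₁)
    have := one_le_cosh (p * t₂)
    rw [mul_zero, cosh_zero]
    linarith
  · have h1 := tangent_cosh hp h0 ht1
    have h2 := tangent_cosh hp h0 ht2
    have h3 : cosh t₁ - cosh t = -(cosh t₂ - cosh t) := by linarith
    rw [h3] at h1
    linarith

lemma conv_sinh {p : ℝ} (hp : 1 ≤ p) {t₁ t₂ t : ℝ}
    (h : sinh t = (sinh t₁ + sinh t₂) / 2) :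
    cosh (p * t) ≤ (cosh (p * t₁) + cosh (p * t₂)) / 2 := by
  have h1 := tangent_sinh hp t t₁
  have h2 := tangent_sinh hp t t₂
  have h3 : sinh t₁ - sinh t = -(sinh t₂ - sinh t) := by linarith
  rw [h3] at h1
  linarith


/-- positive pairs -/
lemma pair_pos {p : ℝ} (hp : 1 ≤ p) {x₁ y₁ x₂ y₂ X Y : ℝ}
    (hx1 : 0 < x₁) (hy1 : 0 < y₁) (hx2 : 0 < x₂) (hy2 : 0 < y₂) (hX : 0 < X) (hY : 0 < Y)
    (h1 : x₁ * y₁ = X * Y) (h2 : x₂ * y₂ = X * Y)
    (hs : X + Y = ((x₁ + y₁) + (x₂ + y₂)) / 2) :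
    X ^ p + Y ^ p ≤ ((x₁ ^ p + y₁ ^ p) + (x₂ ^ p + y₂ ^ p)) / 2 := by
  set c := √(X * Y) with hc
  have hq : 0 < X * Y := mul_pos hX hY
  have hcpos : 0 < c := Real.sqrt_pos.2 hq
  have hcc : c * c = X * Y := Real.mul_self_sqrt hq.le
  -- parametrization
  have par : ∀ x y : ℝ, 0 < x → 0 < y → x * y = X * Y →
      ∃ t : ℝ, x + y = 2 * c * cosh t ∧ x ^ p + y ^ p = 2 * c ^ p * cosh (p * t) := by
    intro x y hx hy hxy
    refine ⟨Real.log (x / c), ?_, ?_⟩
    · have hxc : 0 < x / c := div_pos hx hcpos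
      rw [Real.cosh_eq, Real.exp_log hxc, Real.exp_neg, Real.exp_log hxc]
      have : (x / c)⁻¹ = y / c := by
        rw [inv_div, div_eq_div_iff hx.ne' hcpos.ne', hcc, ← hxy]; ring
      rw [this]
      field_simp
    · have hxc : 0 < x / c := div_pos hx hcpos
      have hyc : 0 < y / c := div_pos hy hcpos
      have hlog : Real.log (y / c) = - Real.log (x / c) := by
        rw [← Real.log_inv]
        congr 1
        rw [inv_div, eq_comm, div_eq_div_iff hx.ne' hcpos.ne', hcc, ← hxy]; ring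
      have hx' : x ^ p = c ^ p * Real.exp (p * Real.log (x / c)) := by
        rw [show x = c * (x / c) by field_simp, Real.mul_rpow hcpos.le hxc.le,
          Real.rpow_def_of_pos hxc, mul_comm (Real.log _) p]
        congr 3
        field_simp
      have hy' : y ^ p = c ^ p * Real.exp (-(p * Real.log (x / c))) := by
        rw [show y = c * (y / c) by field_simp, Real.mul_rpow hcpos.le hyc.le,
          Real.rpow_def_of_pos hyc, hlog]
        congr 2
        ring
      rw [hx', hy', Real.cosh_eq]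
      ring
  obtain ⟨t₁, ha1, hb1⟩ := par x₁ y₁ hx1 hy1 h1
  obtain ⟨t₂, ha2, hb2⟩ := par x₂ y₂ hx2 hy2 h2
  obtain ⟨t, ha, hb⟩ := par X Y hX hY rfl
  have hcosh : cosh t = (cosh t₁ + cosh t₂) / 2 := by
    have h2c : 0 < 2 * c := by positivity
    have : 2 * c * cosh t = 2 * c * ((cosh t₁ + cosh t₂) / 2) := by
      rw [← ha, hs, ha1, ha2]; ring
    exact mul_left_cancel₀ h2c.ne' this
  have := conv_cosh hp hcosh
  rw [hb, hb1, hb2]
  have hcp : 0 < c ^ p := Real.rpow_pos_of_pos hcpos p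
  nlinarith

/-- pairs of opposite sign: `x > 0`, `-y < 0`, with `x*y` fixed -/
lemma pair_neg {p : ℝ} (hp : 1 ≤ p) {x₁ y₁ x₂ y₂ X Y : ℝ}
    (hx1 : 0 < x₁) (hy1 : 0 < y₁) (hx2 : 0 < x₂) (hy2 : 0 < y₂) (hX : 0 < X) (hY : 0 < Y)
    (h1 : x₁ * y₁ = X * Y) (h2 : x₂ * y₂ = X * Y)
    (hs : X - Y = ((x₁ - y₁) + (x₂ - y₂)) / 2) :
    X ^ p + Y ^ p ≤ ((x₁ ^ p + y₁ ^ p) + (x₂ ^ p + y₂ ^ p)) / 2 := by
  set c := √(X * Y) with hc
  have hq : 0 < X * Y := mul_pos hX hY
  have hcpos : 0 < c := Real.sqrt_pos.2 hq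
  have hcc : c * c = X * Y := Real.mul_self_sqrt hq.le
  have par : ∀ x y : ℝ, 0 < x → 0 < y → x * y = X * Y →
      ∃ t : ℝ, x - y = 2 * c * sinh t ∧ x ^ p + y ^ p = 2 * c ^ p * cosh (p * t) := by
    intro x y hx hy hxy
    refine ⟨Real.log (x / c), ?_, ?_⟩
    · have hxc : 0 < x / c := div_pos hx hcpos
      rw [Real.sinh_eq, Real.exp_log hxc, Real.exp_neg, Real.exp_log hxc]
      have : (x / c)⁻¹ = y / c := by
        rw [inv_div, div_eq_div_iff hx.ne' hcpos.ne', hcc, ← hxy]; ring
      rw [this]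
      field_simp
    · have hxc : 0 < x / c := div_pos hx hcpos
      have hyc : 0 < y / c := div_pos hy hcpos
      have hlog : Real.log (y / c) = - Real.log (x / c) := by
        rw [← Real.log_inv]
        congr 1
        rw [inv_div, eq_comm, div_eq_div_iff hx.ne' hcpos.ne', hcc, ← hxy]; ring
      have hx' : x ^ p = c ^ p * Real.exp (p * Real.log (x / c)) := by
        rw [show x = c * (x / c) by field_simp, Real.mul_rpow hcpos.le hxc.le,
          Real.rpow_def_of_pos hxc, mul_comm (Real.log _) p]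
        congr 3
        field_simp
      have hy' : y ^ p = c ^ p * Real.exp (-(p * Real.log (x / c))) := by
        rw [show y = c * (y / c) by field_simp, Real.mul_rpow hcpos.le hyc.le,
          Real.rpow_def_of_pos hyc, hlog]
        congr 2
        ring
      rw [hx', hy', Real.cosh_eq]
      ring
  obtain ⟨t₁, ha1, hb1⟩ := par x₁ y₁ hx1 hy1 h1
  obtain ⟨t₂, ha2, hb2⟩ := par x₂ y₂ hx2 hy2 h2
  obtain ⟨t, ha, hb⟩ := par X Y hX hY rfl
  have hsinh : sinh t = (sinh t₁ + sinh t₂) / 2 := by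
    have h2c : 0 < 2 * c := by positivity
    have : 2 * c * sinh t = 2 * c * ((sinh t₁ + sinh t₂) / 2) := by
      rw [← ha, hs, ha1, ha2]; ring
    exact mul_left_cancel₀ h2c.ne' this
  have := conv_sinh hp hsinh
  rw [hb, hb1, hb2]
  have hcp : 0 < c ^ p := Real.rpow_pos_of_pos hcpos p
  nlinarith


lemma conv_abs {p : ℝ} (hp : 1 ≤ p) (a b : ℝ) :
    |(a + b) / 2| ^ p ≤ (|a| ^ p + |b| ^ p) / 2 := by
  have h := (convexOn_rpow hp).2 (Set.mem_Ici.2 (abs_nonneg a)) (Set.mem_Ici.2 (abs_nonneg b))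
    (by norm_num : (0:ℝ) ≤ 1/2) (by norm_num : (0:ℝ) ≤ 1/2) (by norm_num)
  simp only [smul_eq_mul] at h
  have h2 : |(a + b) / 2| ≤ 1/2 * |a| + 1/2 * |b| := by
    rw [abs_div, abs_of_pos (by norm_num : (0:ℝ) < 2)]
    have := abs_add_le a b
    linarith
  have h3 := Real.rpow_le_rpow (abs_nonneg _) h2 (by linarith : 0 ≤ p)
  linarith

lemma two_point_aux {p : ℝ} (hp : 1 ≤ p) {l₁ l₂ z₁ z₂ X Y : ℝ} (hl₁ : 0 ≤ l₁) (hl₂ : 0 ≤ l₂)
    (hl : l₁ ^ p + l₂ ^ p = 2) (hXY : Y ≤ X)
    (hs : X + Y = (l₁ + l₂) / 2 * (z₁ + z₂)) (hq : X * Y = l₁ * l₂ * (z₁ * z₂)) :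
    |X| ^ p + |Y| ^ p ≤ |z₁| ^ p + |z₂| ^ p := by
  have hp0 : 0 < p := by linarith
  rcases lt_trichotomy (l₁ * l₂ * (z₁ * z₂)) 0 with h | h | h
  · -- opposite signs
    have hl1 : 0 < l₁ := by
      rcases hl₁.eq_or_lt with h' | h'
      · rw [← h'] at h; simp at h
      · exact h'
    have hl2 : 0 < l₂ := by
      rcases hl₂.eq_or_lt with h' | h'
      · rw [← h'] at h; simp at h
      · exact h'
    have hz : z₁ * z₂ < 0 := by
      by_contra hh
      push Not at hh
      have : 0 ≤ l₁ * l₂ * (z₁ * z₂) := by positivity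
      linarith
    wlog hz1 : 0 < z₁ generalizing z₁ z₂ with H
    · have hz2 : 0 < z₂ := by
        by_contra h2
        push Not at h2 hz1
        have := mul_nonneg_of_nonpos_of_nonpos hz1 h2
        linarith
      have := H (z₁ := z₂) (z₂ := z₁) (by rw [hs]; ring) (by rw [hq]; ring)
        (by linarith [mul_comm z₁ z₂, show l₁ * l₂ * (z₂ * z₁) = l₁ * l₂ * (z₁ * z₂) by ring])
        (by linarith [mul_comm z₁ z₂]) hz2
      linarith
    have hz2 : z₂ < 0 := by
      by_contra h2
      push Not at h2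
      have := mul_nonneg hz1.le h2
      linarith
    have hXY' : X * Y < 0 := by rw [hq]; exact h
    have hX : 0 < X := by
      by_contra h2
      push Not at h2
      have := mul_nonneg_of_nonpos_of_nonpos h2 (hXY.trans h2)
      linarith
    have hY : Y < 0 := by
      by_contra h2
      push Not at h2
      have := mul_nonneg hX.le h2
      linarith
    have key := pair_neg hp (x₁ := l₁ * z₁) (y₁ := l₂ * (-z₂)) (x₂ := l₂ * z₁) (y₂ := l₁ * (-z₂))
      (X := X) (Y := -Y) (by positivity) (mul_pos hl2 (by linarith)) (by positivity)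
      (mul_pos hl1 (by linarith)) hX (by linarith)
      (by linear_combination hq) (by linear_combination hq)
      (by linear_combination hs)
    rw [Real.mul_rpow hl1.le hz1.le, Real.mul_rpow hl2.le (by linarith : 0 ≤ -z₂),
      Real.mul_rpow hl2.le hz1.le, Real.mul_rpow hl1.le (by linarith : 0 ≤ -z₂)] at key
    rw [abs_of_pos hX, abs_of_neg hY, abs_of_pos hz1, abs_of_neg hz2]
    have e : (l₁ ^ p * z₁ ^ p + l₂ ^ p * (-z₂) ^ p + (l₂ ^ p * z₁ ^ p + l₁ ^ p * (-z₂) ^ p)) / 2
        = z₁ ^ p + (-z₂) ^ p := by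
      linear_combination (z₁ ^ p + (-z₂) ^ p) / 2 * hl
    rw [e] at key
    exact key
  · -- zero product
    have hXY0 : X * Y = 0 := by rw [hq, h]
    have z0 : (0:ℝ) ^ p = 0 := Real.zero_rpow hp0.ne'
    have e1 : |X| ^ p + |Y| ^ p = |X + Y| ^ p := by
      rcases mul_eq_zero.1 hXY0 with h' | h'
      · rw [h']; simp [z0]
      · rw [h']; simp [z0]
    have pr : ∀ a b : ℝ, a * b = 0 → |a + b| ^ p = |a| ^ p + |b| ^ p := by
      intro a b hab
      rcases mul_eq_zero.1 hab with h' | h'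
      · rw [h']; simp [z0]
      · rw [h']; simp [z0]
    have h1 := pr (l₁ * z₁) (l₂ * z₂) (by linarith [show l₁ * z₁ * (l₂ * z₂) = l₁ * l₂ * (z₁ * z₂) by ring])
    have h2 := pr (l₁ * z₂) (l₂ * z₁) (by linarith [show l₁ * z₂ * (l₂ * z₁) = l₁ * l₂ * (z₁ * z₂) by ring])
    have h3 := conv_abs hp (l₁ * z₁ + l₂ * z₂) (l₁ * z₂ + l₂ * z₁)
    rw [h1, h2] at h3
    have e2 : (l₁ * z₁ + l₂ * z₂ + (l₁ * z₂ + l₂ * z₁)) / 2 = X + Y := by
      rw [hs]; ring
    rw [e2] at h3
    rw [e1]
    have am : ∀ a b : ℝ, 0 ≤ a → |a * b| ^ p = a ^ p * |b| ^ p := by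
      intro a b ha
      rw [abs_mul, abs_of_nonneg ha, Real.mul_rpow ha (abs_nonneg b)]
    rw [am _ _ hl₁, am _ _ hl₂, am _ _ hl₁, am _ _ hl₂] at h3
    have e : (l₁ ^ p * |z₁| ^ p + l₂ ^ p * |z₂| ^ p + (l₁ ^ p * |z₂| ^ p + l₂ ^ p * |z₁| ^ p)) / 2
        = |z₁| ^ p + |z₂| ^ p := by
      linear_combination (|z₁| ^ p + |z₂| ^ p) / 2 * hl
    rw [e] at h3
    exact h3
  · -- same sign
    have hl1 : 0 < l₁ := by
      rcases hl₁.eq_or_lt with h' | h'
      · rw [← h'] at h; simp at h
      · exact h'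
    have hl2 : 0 < l₂ := by
      rcases hl₂.eq_or_lt with h' | h'
      · rw [← h'] at h; simp at h
      · exact h'
    have hz : 0 < z₁ * z₂ := by
      by_contra hh
      push Not at hh
      have : l₁ * l₂ * (z₁ * z₂) ≤ 0 := mul_nonpos_of_nonneg_of_nonpos (by positivity) hh
      linarith
    wlog hz1 : 0 < z₁ generalizing z₁ z₂ X Y with H
    · have hz1' : z₁ < 0 := by
        push Not at hz1
        rcases hz1.eq_or_lt with h' | h'
        · rw [h'] at hz; simp at hz
        · exact h'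
      have := H (z₁ := -z₁) (z₂ := -z₂) (X := -Y) (Y := -X) (by linarith) (by linarith)
        (by linarith) (by linarith) (by linarith) (by linarith)
      simp only [abs_neg] at this
      linarith
    have hz2 : 0 < z₂ := by
      by_contra h2
      push Not at h2
      have := mul_nonpos_of_nonneg_of_nonpos hz1.le h2
      linarith
    have hXY' : 0 < X * Y := by rw [hq]; exact h
    have hsum : 0 < X + Y := by rw [hs]; positivity
    have hX : 0 < X := by linarith
    have hY : 0 < Y := by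
      by_contra h2
      push Not at h2
      have := mul_nonpos_of_nonneg_of_nonpos hX.le h2
      linarith
    have key := pair_pos hp (x₁ := l₁ * z₁) (y₁ := l₂ * z₂) (x₂ := l₂ * z₁) (y₂ := l₁ * z₂)
      (X := X) (Y := Y) (by positivity) (by positivity) (by positivity)
      (by positivity) hX hY
      (by linear_combination -hq) (by linear_combination -hq)
      (by linear_combination hs)
    rw [Real.mul_rpow hl1.le hz1.le, Real.mul_rpow hl2.le hz2.le,
      Real.mul_rpow hl2.le hz1.le, Real.mul_rpow hl1.le hz2.le] at key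
    rw [abs_of_pos hX, abs_of_pos hY, abs_of_pos hz1, abs_of_pos hz2]
    have e : (l₁ ^ p * z₁ ^ p + l₂ ^ p * z₂ ^ p + (l₂ ^ p * z₁ ^ p + l₁ ^ p * z₂ ^ p)) / 2
        = z₁ ^ p + z₂ ^ p := by
      linear_combination (z₁ ^ p + z₂ ^ p) / 2 * hl
    rw [e] at key
    exact key

lemma two_point {p : ℝ} (hp : 1 ≤ p) {l₁ l₂ : ℝ} (z₁ z₂ : ℝ) (hl₁ : 0 ≤ l₁) (hl₂ : 0 ≤ l₂)
    (hl : l₁ ^ p + l₂ ^ p = 2) :
    ∃ X Y : ℝ, X + Y = (l₁ + l₂) / 2 * (z₁ + z₂) ∧ X * Y = l₁ * l₂ * (z₁ * z₂) ∧
      |X| ^ p + |Y| ^ p ≤ |z₁| ^ p + |z₂| ^ p := by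
  set σ := (l₁ + l₂) / 2 * (z₁ + z₂) with hσ
  set q := l₁ * l₂ * (z₁ * z₂) with hq
  have hΔ : 0 ≤ σ ^ 2 - 4 * q := by
    rcases le_total 0 (z₁ * z₂) with h | h
    · have h1 : l₁ * l₂ ≤ ((l₁ + l₂) / 2) ^ 2 := by nlinarith [sq_nonneg (l₁ - l₂)]
      have h2 : 4 * (z₁ * z₂) ≤ (z₁ + z₂) ^ 2 := by nlinarith [sq_nonneg (z₁ - z₂)]
      have h3 : l₁ * l₂ * (4 * (z₁ * z₂)) ≤ ((l₁ + l₂) / 2) ^ 2 * (z₁ + z₂) ^ 2 :=
        mul_le_mul h1 h2 (by positivity) (by positivity)
      have : σ ^ 2 = ((l₁ + l₂) / 2) ^ 2 * (z₁ + z₂) ^ 2 := by rw [hσ]; ring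
      rw [this, hq]
      linarith [show 4 * (l₁ * l₂ * (z₁ * z₂)) = l₁ * l₂ * (4 * (z₁ * z₂)) by ring]
    · have : q ≤ 0 := mul_nonpos_of_nonneg_of_nonpos (by positivity) h
      nlinarith [sq_nonneg σ]
  refine ⟨(σ + √(σ ^ 2 - 4 * q)) / 2, (σ - √(σ ^ 2 - 4 * q)) / 2, by ring, ?_, ?_⟩
  · have := Real.sq_sqrt hΔ
    linear_combination -(1/4) * this
  · apply two_point_aux hp hl₁ hl₂ hl
    · have := Real.sqrt_nonneg (σ ^ 2 - 4 * q)
      linarith
    · ring
    · have := Real.sq_sqrt hΔ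
      linear_combination -(1/4) * this

/-- The symmetrization step for a biaffine function of two variables. -/
lemma biaffine {p : ℝ} (hp : 1 ≤ p) {l₁ l₂ : ℝ} (hl₁ : 0 ≤ l₁) (hl₂ : 0 ≤ l₂)
    (hl : l₁ ^ p + l₂ ^ p = 2) (f : ℝ → ℝ → ℝ) {A B₁ B₂ C : ℝ}
    (hf : ∀ x y, f x y = A + B₁ * x + B₂ * y + C * (x * y))
    {L R s : ℝ} (hL : 0 ≤ L) (hR : 0 ≤ R) (hs : 0 ≤ s)
    (hlow : ∀ x y, - (L * (|x| ^ p + |y| ^ p + R) ^ s) ≤ f x y) (z₁ z₂ : ℝ) :
    - (L * (|z₁| ^ p + |z₂| ^ p + R) ^ s) ≤ (f (l₁ * z₁) (l₂ * z₂) + f (l₁ * z₂) (l₂ * z₁)) / 2 := by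
  obtain ⟨X, Y, hsum, hprod, hle⟩ := two_point hp z₁ z₂ hl₁ hl₂ hl
  set m := (z₁ + z₂) / 2 with hm
  -- weight
  have hbetween : (l₁ * m - X) * (l₁ * m - Y) ≤ 0 := by
    have h1 : (l₁ * m - X) * (l₁ * m - Y) = l₁ * l₂ * (z₁ * z₂ - m ^ 2) := by
      have : (l₁ * m - X) * (l₁ * m - Y) = l₁ ^ 2 * m ^ 2 - l₁ * m * (X + Y) + X * Y := by ring
      rw [this, hsum, hprod, hm]; ring
    rw [h1]
    apply mul_nonpos_of_nonneg_of_nonpos (by positivity)
    rw [hm]; nlinarith [sq_nonneg (z₁ - z₂)]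
  have hω : ∃ ω : ℝ, 0 ≤ ω ∧ ω ≤ 1 ∧ ω * X + (1 - ω) * Y = l₁ * m := by
    by_cases hXY : X = Y
    · refine ⟨0, le_rfl, zero_le_one, ?_⟩
      rw [hXY] at hbetween
      have : (l₁ * m - Y) ^ 2 = 0 := le_antisymm (by nlinarith) (sq_nonneg _)
      have := pow_eq_zero_iff (two_ne_zero) |>.1 this
      linarith
    · refine ⟨(l₁ * m - Y) / (X - Y), ?_, ?_, ?_⟩
      · rcases lt_or_gt_of_ne hXY with h | h
        · apply div_nonneg_of_nonpos _ (by linarith)
          by_contra h2
          push Not at h2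
          have h3 : 0 < l₁ * m - X := by linarith
          have := mul_pos h3 h2
          linarith
        · apply div_nonneg _ (by linarith)
          by_contra h2
          push Not at h2
          have h3 : l₁ * m - X < 0 := by linarith
          have := mul_pos_of_neg_of_neg h3 h2
          linarith
      · rcases lt_or_gt_of_ne hXY with h | h
        · rw [div_le_one_of_neg (by linarith)]
          by_contra h2
          push Not at h2
          have h3 : l₁ * m - X < 0 := by linarith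
          have h4 : l₁ * m - Y < 0 := by linarith
          have := mul_pos_of_neg_of_neg h3 h4
          linarith
        · rw [div_le_one (by linarith)]
          by_contra h2
          push Not at h2
          have h3 : 0 < l₁ * m - X := by linarith
          have h4 : 0 < l₁ * m - Y := by linarith
          have := mul_pos h3 h4
          linarith
      · have : X - Y ≠ 0 := sub_ne_zero.2 hXY
        field_simp
        ring
  obtain ⟨ω, hω0, hω1, hωe⟩ := hω
  have e1 : (f (l₁ * z₁) (l₂ * z₂) + f (l₁ * z₂) (l₂ * z₁)) / 2 = ω * f X Y + (1 - ω) * f Y X := by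
    rw [hf, hf, hf, hf]
    have h2 : (1 - ω) * X + ω * Y = l₂ * m := by
      have : (1 - ω) * X + ω * Y = (X + Y) - (ω * X + (1 - ω) * Y) := by ring
      rw [this, hωe, hsum, hm]; ring
    have h3 : ω * (A + B₁ * X + B₂ * Y + C * (X * Y)) + (1 - ω) * (A + B₁ * Y + B₂ * X + C * (Y * X))
        = A + B₁ * (ω * X + (1 - ω) * Y) + B₂ * ((1 - ω) * X + ω * Y) + C * (X * Y) := by ring
    rw [h3, hωe, h2, hprod, hm]; ring
  have hmono : (|X| ^ p + |Y| ^ p + R) ^ s ≤ (|z₁| ^ p + |z₂| ^ p + R) ^ s := by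
    apply Real.rpow_le_rpow (by positivity) (by linarith) hs
  have h1 := hlow X Y
  have h2 := hlow Y X
  rw [add_comm (|Y| ^ p)] at h2
  have h3 : L * (|X| ^ p + |Y| ^ p + R) ^ s ≤ L * (|z₁| ^ p + |z₂| ^ p + R) ^ s :=
    mul_le_mul_of_nonneg_left hmono hL
  rw [e1]
  have h4 : - (L * (|z₁| ^ p + |z₂| ^ p + R) ^ s) ≤ f X Y := by linarith
  have h5 : - (L * (|z₁| ^ p + |z₂| ^ p + R) ^ s) ≤ f Y X := by linarith
  have h6 := mul_le_mul_of_nonneg_left h4 hω0
  have h7 := mul_le_mul_of_nonneg_left h5 (by linarith : 0 ≤ 1 - ω)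
  linarith

end Pool.Agent.R309.HF
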