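import Mathlib
import Pool.Agent.R309.HF.TwoPoint

namespace Pool.Agent.R309.HF

open Finset

variable {n r : ℕ}

/-- multilinear form of degree `r` with coefficients `c`. -/
noncomputable def Fc (r : ℕ) {n : ℕ} (c : Finset (Fin n) → ℝ) (z : Fin n → ℝ) : ℝ :=
  ∑ S ∈ powersetCard r (univ : Finset (Fin n)), c S * ∏ i ∈ S, z i

/-- sum of `p`-th powers. -/
noncomputable def N (p : ℝ) {n : ℕ} (z : Fin n → ℝ) : ℝ := ∑ i, |z i| ^ p

lemma N_nonneg (p : ℝ) (z : Fin n → ℝ) : 0 ≤ N p z :=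
  sum_nonneg fun _ _ => Real.rpow_nonneg (abs_nonneg _) _

lemma Fc_scale (c : Finset (Fin n) → ℝ) (s z : Fin n → ℝ) :
    Fc r (fun S => c S * ∏ l ∈ S, s l) z = Fc r c (fun l => s l * z l) := by
  unfold Fc
  refine sum_congr rfl fun S _ => ?_
  rw [prod_mul_distrib]; ring

lemma Fc_perm (c : Finset (Fin n) → ℝ) (σ : Equiv.Perm (Fin n)) (z : Fin n → ℝ) :
    Fc r (fun S => c (S.map σ.toEmbedding)) z = Fc r c (fun i => z (σ.symm i)) := by
  unfold Fc
  refine sum_bij' (fun S _ => S.map σ.toEmbedding) (fun S _ => S.map σ.symm.toEmbedding) ?_ ?_ ?_ ?_ ?_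
  · intro S hS; simp only [mem_powersetCard, subset_univ, true_and, card_map] at hS ⊢; exact hS
  · intro S hS; simp only [mem_powersetCard, subset_univ, true_and, card_map] at hS ⊢; exact hS
  · intro S _; ext x; simp
  · intro S _; ext x; simp
  · intro S _
    simp [prod_map]

lemma Fc_avg (c₁ c₂ : Finset (Fin n) → ℝ) (z : Fin n → ℝ) :
    Fc r (fun S => (c₁ S + c₂ S) / 2) z = (Fc r c₁ z + Fc r c₂ z) / 2 := by
  unfold Fc
  rw [← sum_add_distrib, sum_div]
  refine sum_congr rfl fun S _ => ?_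
  ring

lemma Fc_smul (c : Finset (Fin n) → ℝ) (t : ℝ) (z : Fin n → ℝ) :
    Fc r c (fun i => t * z i) = t ^ r * Fc r c z := by
  unfold Fc
  rw [mul_sum]
  refine sum_congr rfl fun S hS => ?_
  rw [mem_powersetCard] at hS
  rw [prod_mul_distrib, prod_const, hS.2]; ring

lemma Fc_affine (c : Finset (Fin n) → ℝ) (z : Fin n → ℝ) (i : Fin n) (X : ℝ) :
    Fc r c (Function.update z i X) = Fc r c (Function.update z i 0)
      + X * (Fc r c (Function.update z i 1) - Fc r c (Function.update z i 0)) := by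
  unfold Fc
  rw [← sum_sub_distrib, mul_sum, ← sum_add_distrib]
  refine sum_congr rfl fun S _ => ?_
  by_cases hi : i ∈ S
  · rw [prod_update_of_mem hi, prod_update_of_mem hi, prod_update_of_mem hi]; ring
  · rw [prod_update_of_notMem hi, prod_update_of_notMem hi, prod_update_of_notMem hi]; ring

lemma Fc_biaffine (c : Finset (Fin n) → ℝ) (z : Fin n → ℝ) {i j : Fin n} (hij : i ≠ j) :
    ∃ A B₁ B₂ C : ℝ, ∀ X Y, Fc r c (Function.update (Function.update z i X) j Y)
      = A + B₁ * X + B₂ * Y + C * (X * Y) := by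
  set f : ℝ → ℝ → ℝ := fun X Y => Fc r c (Function.update (Function.update z i X) j Y) with hf
  refine ⟨f 0 0, f 1 0 - f 0 0, f 0 1 - f 0 0, f 1 1 - f 1 0 - f 0 1 + f 0 0, fun X Y => ?_⟩
  have h1 : ∀ X Y, f X Y = f X 0 + Y * (f X 1 - f X 0) := fun X Y => Fc_affine c _ j Y
  have h2 : ∀ X y, f X y = f 0 y + X * (f 1 y - f 0 y) := by
    intro X y
    have := Fc_affine (r := r) c (Function.update z j y) i X
    simp only [hf]
    have e : ∀ X : ℝ, Function.update (Function.update z i X) j y = Function.update (Function.update z j y) i X :=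
      fun X => Function.update_comm (β := fun _ => ℝ) hij X y z
    rw [e, e, e]
    exact this
  change f X Y = _
  rw [h1 X Y, h2 X 0, h2 X 1]
  ring

lemma N_update2 (p : ℝ) (z : Fin n → ℝ) {i j : Fin n} (hij : i ≠ j) (X Y : ℝ) :
    N p (Function.update (Function.update z i X) j Y)
      = |X| ^ p + |Y| ^ p + ∑ l ∈ (univ.erase j).erase i, |z l| ^ p := by
  unfold N
  rw [← add_sum_erase univ _ (mem_univ j), ← add_sum_erase (univ.erase j) _ (mem_erase.2 ⟨hij, mem_univ i⟩)]
  rw [Function.update_self, Function.update_of_ne hij, Function.update_self]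
  have : ∑ l ∈ (univ.erase j).erase i, |Function.update (Function.update z i X) j Y l| ^ p
      = ∑ l ∈ (univ.erase j).erase i, |z l| ^ p := by
    refine sum_congr rfl fun l hl => ?_
    rw [mem_erase, mem_erase] at hl
    rw [Function.update_of_ne hl.2.1, Function.update_of_ne hl.1]
  rw [this]; ring

lemma N_perm (p : ℝ) (z : Fin n → ℝ) (σ : Equiv.Perm (Fin n)) :
    N p (fun i => z (σ i)) = N p z := by
  unfold N
  exact Equiv.sum_comp σ (fun i => |z i| ^ p)

/-- one symmetrization step, feasibility -/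
lemma step_feasible {p : ℝ} (hp : 1 ≤ p) {L s : ℝ} (hL : 0 ≤ L) (hs : 0 ≤ s)
    (c : Finset (Fin n) → ℝ) (hc : ∀ z, -(L * (N p z) ^ s) ≤ Fc r c z)
    {i j : Fin n} (hij : i ≠ j) {l₁ l₂ : ℝ} (hl₁ : 0 ≤ l₁) (hl₂ : 0 ≤ l₂)
    (hl : l₁ ^ p + l₂ ^ p = 2) (z : Fin n → ℝ) :
    -(L * (N p z) ^ s) ≤ (Fc r c (Function.update (Function.update z i (l₁ * z i)) j (l₂ * z j))
      + Fc r c (Function.update (Function.update z i (l₁ * z j)) j (l₂ * z i))) / 2 := by
  obtain ⟨A, B₁, B₂, C, hf⟩ := Fc_biaffine (r := r) c z hij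
  have hz : N p z = |z i| ^ p + |z j| ^ p + ∑ l ∈ (univ.erase j).erase i, |z l| ^ p := by
    have := N_update2 p z hij (z i) (z j)
    simpa using this
  have := biaffine hp hl₁ hl₂ hl
    (fun X Y => Fc r c (Function.update (Function.update z i X) j Y)) hf hL
    (R := ∑ l ∈ (univ.erase j).erase i, |z l| ^ p)
    (sum_nonneg fun i _ => Real.rpow_nonneg (abs_nonneg _) _) hs
    (fun X Y => by rw [← N_update2 p z hij X Y]; exact hc _) (z i) (z j)
  rw [hz]
  exact this

end Pool.Agent.R309.HF
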