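import Mathlib
import Pool.Agent.R309.HF.Form

namespace Pool.Agent.R309.HF

open Finset

variable {k r : ℕ}

lemma Fc_coef (c : Finset (Fin k) → ℝ) (S : Finset (Fin k)) (hS : S.card = r) (y : Fin k → ℝ) :
    Fc r c (fun i => if i ∈ S then y i else 0) = c S * ∏ i ∈ S, y i := by
  unfold Fc
  rw [sum_eq_single S]
  · congr 1
    refine prod_congr rfl fun i hi => ?_
    simp only [if_pos hi]
  · intro T hT hTS
    rw [mem_powersetCard] at hT
    have : ∃ i ∈ T, i ∉ S := by
      by_contra h
      push Not at h
      exact hTS (eq_of_subset_of_card_le h (by rw [hS, hT.2]))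
    obtain ⟨i, hiT, hiS⟩ := this
    rw [prod_eq_zero hiT (by rw [if_neg hiS]), mul_zero]
  · intro h
    exact absurd (mem_powersetCard.2 ⟨subset_univ _, hS⟩) h

lemma N_ind {p : ℝ} (hp : 0 < p) (S : Finset (Fin k)) (y : Fin k → ℝ) (hy : ∀ i, |y i| = 1) :
    N p (fun i => if i ∈ S then y i else 0) = S.card := by
  unfold N
  have : ∀ i, |if i ∈ S then y i else 0| ^ p = if i ∈ S then (1:ℝ) else 0 := by
    intro i
    split_ifs with h
    · rw [hy i, Real.one_rpow]
    · rw [abs_zero, Real.zero_rpow hp.ne']
  simp_rw [this]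
  rw [sum_ite_mem, univ_inter, sum_const, nsmul_eq_mul, mul_one]

lemma coef_bound (hr : 1 ≤ r) {p L s : ℝ} (hp : 0 < p) (c : Finset (Fin k) → ℝ)
    (hc : ∀ z, -(L * (N p z) ^ s) ≤ Fc r c z) (S : Finset (Fin k)) (hS : S.card = r) :
    |c S| ≤ L * (r:ℝ) ^ s := by
  rw [abs_le]
  constructor
  · have h := hc (fun i => if i ∈ S then (fun _ => (1:ℝ)) i else 0)
    rw [Fc_coef c S hS, N_ind hp S _ (fun _ => abs_one), hS] at h
    simpa using h
  · obtain ⟨i₀, hi₀⟩ : S.Nonempty := card_pos.1 (by omega)
    set y : Fin k → ℝ := fun i => if i = i₀ then -1 else 1 with hy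
    have h := hc (fun i => if i ∈ S then y i else 0)
    have hy1 : ∀ i, |y i| = 1 := by
      intro i
      simp only [hy]
      split_ifs <;> simp
    rw [Fc_coef c S hS, N_ind hp S _ hy1, hS] at h
    have hprod : ∏ i ∈ S, y i = -1 := by
      simp only [hy]
      rw [prod_ite_eq' S i₀ (fun _ => (-1:ℝ))]; simp [hi₀]
    rw [hprod] at h
    linarith

/-- The set of feasible pairs. -/
def KSet (r : ℕ) {k : ℕ} (p L s v : ℝ) : Set ((Fin k → ℝ) × (Finset (Fin k) → ℝ)) :=
  {q | (∀ i, 0 ≤ q.1 i) ∧ ∑ i, q.1 i = 1 ∧ (∀ S, S.card ≠ r → q.2 S = 0) ∧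
    (∀ z, -(L * (N p z) ^ s) ≤ Fc r q.2 z) ∧ v ≤ Fc r q.2 (fun i => (q.1 i) ^ (1 / p))}

lemma continuous_Fc_pair {X : Type*} [TopologicalSpace X] (f : X → (Finset (Fin k) → ℝ))
    (g : X → (Fin k → ℝ)) (hf : Continuous f) (hg : Continuous g) :
    Continuous (fun x => Fc r (f x) (g x)) := by
  unfold Fc
  refine continuous_finsetSum _ fun S _ => ?_
  refine ((continuous_apply S).comp hf).mul ?_
  exact continuous_finsetProd _ fun i _ => (continuous_apply i).comp hg

lemma KSet_closed {p L s v : ℝ} (hp : 0 < p) : IsClosed (KSet r (k := k) p L s v) := by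
  unfold KSet
  simp only [Set.ofPred_and]
  refine IsClosed.inter ?_ (IsClosed.inter ?_ (IsClosed.inter ?_ (IsClosed.inter ?_ ?_)))
  · simp only [Set.ofPred_forall]
    exact isClosed_iInter fun i => isClosed_le continuous_const
      ((continuous_apply i).comp continuous_fst)
  · exact isClosed_eq (continuous_finsetSum _ fun i _ => (continuous_apply i).comp continuous_fst)
      continuous_const
  · simp only [Set.ofPred_forall]
    exact isClosed_iInter fun S => isClosed_iInter fun _ =>
      isClosed_eq ((continuous_apply S).comp continuous_snd) continuous_const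
  · simp only [Set.ofPred_forall]
    exact isClosed_iInter fun z => isClosed_le continuous_const
      (continuous_Fc_pair _ _ continuous_snd continuous_const)
  · refine isClosed_le continuous_const (continuous_Fc_pair _ _ continuous_snd ?_)
    refine continuous_pi fun i => ?_
    exact (Real.continuous_rpow_const (by positivity)).comp ((continuous_apply i).comp continuous_fst)

lemma KSet_compact (hr : 1 ≤ r) {p L s v : ℝ} (hp : 0 < p) :
    IsCompact (KSet r (k := k) p L s v) := by
  set B : ℝ := |L * (r:ℝ) ^ s| with hB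
  have hbox : IsCompact (Set.Icc (fun _ => (0:ℝ)) (fun _ => (1:ℝ)) ×ˢ
      Set.Icc (fun _ => -B) (fun _ => B) : Set ((Fin k → ℝ) × (Finset (Fin k) → ℝ))) :=
    isCompact_Icc.prod isCompact_Icc
  refine hbox.of_isClosed_subset (KSet_closed hp) ?_
  rintro ⟨a, c⟩ ⟨h1, h2, h3, h4, _⟩
  refine ⟨⟨h1, fun i => ?_⟩, ⟨fun S => ?_, fun S => ?_⟩⟩
  · rw [← h2]
    exact single_le_sum (fun j _ => h1 j) (mem_univ i)
  · by_cases hS : S.card = r
    · have := (abs_le.1 (coef_bound hr hp c h4 S hS)).1
      have := le_abs_self (L * (r:ℝ) ^ s)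
      simp only
      linarith
    · have h := h3 S hS
      simp only at h
      simp only [h, hB]; linarith [abs_nonneg (L * (r:ℝ) ^ s)]
  · by_cases hS : S.card = r
    · have := (abs_le.1 (coef_bound hr hp c h4 S hS)).2
      exact this.trans (le_abs_self _)
    · have h := h3 S hS
      simp only at h
      simp only [h, hB]; exact abs_nonneg _

theorem uniformize (hk : 0 < k) (hr : 1 ≤ r) {p L s v : ℝ} (hp : 1 ≤ p) (hL : 0 ≤ L) (hs : 0 ≤ s)
    (a : Fin k → ℝ) (ha : ∀ i, 0 ≤ a i) (hsum : ∑ i, a i = 1) (c : Finset (Fin k) → ℝ)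
    (hc : ∀ z, -(L * (N p z) ^ s) ≤ Fc r c z) (hv : v ≤ Fc r c (fun i => (a i) ^ (1 / p))) :
    ∃ c' : Finset (Fin k) → ℝ, (∀ z, -(L * (N p z) ^ s) ≤ Fc r c' z) ∧
      v ≤ Fc r c' (fun _ => (1 / (k:ℝ)) ^ (1 / p)) := by
  have hp0 : 0 < p := by linarith
  have hne : (KSet r (k := k) p L s v).Nonempty := by
    have hF : ∀ z, Fc r (fun S => if S.card = r then c S else 0) z = Fc r c z := by
      intro z
      unfold Fc
      refine sum_congr rfl fun S hS => ?_
      rw [mem_powersetCard] at hS
      simp only [if_pos hS.2]
    refine ⟨(a, fun S => if S.card = r then c S else 0), ha, hsum, ?_, ?_, ?_⟩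
    · intro S hS; simp [hS]
    · intro z; rw [hF]; exact hc z
    · rw [hF]; exact hv
  have hcont : ContinuousOn (fun q : (Fin k → ℝ) × (Finset (Fin k) → ℝ) => ∑ i, (q.1 i) ^ 2)
      (KSet r p L s v) := by
    refine Continuous.continuousOn ?_
    exact continuous_finsetSum _ fun i _ => ((continuous_apply i).comp continuous_fst).pow 2
  obtain ⟨⟨b, d⟩, hmem, hmin⟩ := (KSet_compact (k := k) hr hp0).exists_isMinOn hne hcont
  obtain ⟨hb0, hbsum, hd0, hdfeas, hdv⟩ := hmem
  -- all entries equal
  have hall : ∀ i j, b i = b j := by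
    intro i j
    by_contra hne'
    have hij : i ≠ j := fun h => hne' (by rw [h])
    set m := (b i + b j) / 2 with hm
    have hbi := hb0 i
    have hbj := hb0 j
    simp only at hbi hbj
    have hmpos : 0 < m := by
      rcases lt_or_gt_of_ne hne' with h | h <;> rw [hm] <;> linarith
    set l₁ := (b i / m) ^ (1 / p) with hl₁
    set l₂ := (b j / m) ^ (1 / p) with hl₂
    have hl₁0 : 0 ≤ l₁ := Real.rpow_nonneg (by positivity) _
    have hl₂0 : 0 ≤ l₂ := Real.rpow_nonneg (by positivity) _
    have hpp : (1 / p) * p = 1 := by field_simp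
    have hl : l₁ ^ p + l₂ ^ p = 2 := by
      rw [hl₁, hl₂, ← Real.rpow_mul (by positivity), ← Real.rpow_mul (by positivity), hpp,
        Real.rpow_one, Real.rpow_one, ← add_div, hm]
      have : b i + b j ≠ 0 := by intro h; rw [hm, h] at hmpos; simp at hmpos
      field_simp
    -- new data
    set sc : Fin k → ℝ := fun l => if l = i then l₁ else if l = j then l₂ else 1 with hsc
    set σ := Equiv.swap i j with hσ
    set d1 : Finset (Fin k) → ℝ := fun S => d S * ∏ l ∈ S, sc l with hd1
    set d' : Finset (Fin k) → ℝ := fun S => (d1 S + d1 (S.map σ.toEmbedding)) / 2 with hd'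
    set b' : Fin k → ℝ := Function.update (Function.update b i m) j m with hb'
    have hF' : ∀ z, Fc r d' z = (Fc r d (fun l => sc l * z l) + Fc r d (fun l => sc l * z (σ l))) / 2 := by
      intro z
      rw [hd', Fc_avg d1 (fun S => d1 (S.map σ.toEmbedding)), Fc_perm d1 σ, hd1, Fc_scale, Fc_scale]
      simp [hσ]
    have e1 : ∀ z : Fin k → ℝ, (fun l => sc l * z l)
        = Function.update (Function.update z i (l₁ * z i)) j (l₂ * z j) := by
      intro z
      funext l
      by_cases hlj : l = j
      · subst hlj
        rw [Function.update_self]; simp [hsc, hij.symm]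
      · rw [Function.update_of_ne hlj]
        by_cases hli : l = i
        · subst hli; rw [Function.update_self]; simp [hsc]
        · rw [Function.update_of_ne hli]; simp [hsc, hli, hlj]
    have e2 : ∀ z : Fin k → ℝ, (fun l => sc l * z (σ l))
        = Function.update (Function.update z i (l₁ * z j)) j (l₂ * z i) := by
      intro z
      funext l
      by_cases hlj : l = j
      · subst hlj
        rw [Function.update_self]; simp [hsc, hij.symm, hσ]
      · rw [Function.update_of_ne hlj]
        by_cases hli : l = i
        · subst hli; rw [Function.update_self]; simp [hsc, hσ]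
        · rw [Function.update_of_ne hli]
          simp [hsc, hli, hlj, hσ, Equiv.swap_apply_of_ne_of_ne hli hlj]
    have hmem' : (b', d') ∈ KSet r (k := k) p L s v := by
      refine ⟨?_, ?_, ?_, ?_, ?_⟩
      · intro l
        simp only [hb']
        by_cases hlj : l = j
        · subst hlj; rw [Function.update_self]; exact hmpos.le
        · rw [Function.update_of_ne hlj]
          by_cases hli : l = i
          · subst hli; rw [Function.update_self]; exact hmpos.le
          · rw [Function.update_of_ne hli]; exact hb0 l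
      · simp only [hb']
        rw [← add_sum_erase univ _ (mem_univ j), ← add_sum_erase (univ.erase j) _ (mem_erase.2 ⟨hij, mem_univ i⟩)]
        rw [Function.update_self, Function.update_of_ne hij, Function.update_self]
        have hrest : ∑ l ∈ (univ.erase j).erase i, Function.update (Function.update b i m) j m l
            = ∑ l ∈ (univ.erase j).erase i, b l := by
          refine sum_congr rfl fun l hl => ?_
          rw [mem_erase, mem_erase] at hl
          rw [Function.update_of_ne hl.2.1, Function.update_of_ne hl.1]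
        rw [hrest]
        have h0 := hbsum
        simp only at h0
        rw [← add_sum_erase univ _ (mem_univ j), ← add_sum_erase (univ.erase j) _ (mem_erase.2 ⟨hij, mem_univ i⟩)] at h0
        rw [hm]; linarith
      · intro S hS
        have h1 := hd0 S hS
        have h2 := hd0 (S.map σ.toEmbedding) (by rwa [card_map])
        simp only at h1 h2
        simp only [hd', hd1, h1, h2]
        ring
      · intro z
        simp only
        rw [hF', e1, e2]
        exact step_feasible hp hL hs d hdfeas hij hl₁0 hl₂0 hl z
      · simp only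
        rw [hF', e1 (fun l => (b' l) ^ (1 / p)), e2 (fun l => (b' l) ^ (1 / p))]
        have hbi' : b' i = m := by rw [hb', Function.update_of_ne hij, Function.update_self]
        have hbj' : b' j = m := by rw [hb', Function.update_self]
        have t1 : l₁ * m ^ (1 / p) = (b i) ^ (1 / p) := by
          rw [hl₁, ← Real.mul_rpow (by positivity) hmpos.le]
          congr 1
          field_simp
        have t2 : l₂ * m ^ (1 / p) = (b j) ^ (1 / p) := by
          rw [hl₂, ← Real.mul_rpow (by positivity) hmpos.le]
          congr 1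
          field_simp
        have t3 : Function.update (Function.update (fun l => (b' l) ^ (1 / p)) i
            (l₁ * m ^ (1 / p))) j (l₂ * m ^ (1 / p)) = fun l => (b l) ^ (1 / p) := by
          funext l
          by_cases hlj : l = j
          · subst hlj; rw [Function.update_self, t2]
          · rw [Function.update_of_ne hlj]
            by_cases hli : l = i
            · subst hli; rw [Function.update_self, t1]
            · rw [Function.update_of_ne hli, hb', Function.update_of_ne hlj,
                Function.update_of_ne hli]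
        rw [hbi', hbj', t3]
        have := hdv
        simp only at this
        linarith
    have hlt := hmin hmem'
    simp only [Set.mem_ofPred_eq] at hlt
    have hs1 : ∑ l, (b' l) ^ 2 = m ^ 2 + m ^ 2 + ∑ l ∈ (univ.erase j).erase i, (b l) ^ 2 := by
      rw [← add_sum_erase univ _ (mem_univ j), ← add_sum_erase (univ.erase j) _ (mem_erase.2 ⟨hij, mem_univ i⟩)]
      rw [hb', Function.update_self, Function.update_of_ne hij, Function.update_self]
      have hrest : ∑ l ∈ (univ.erase j).erase i, (Function.update (Function.update b i m) j m l) ^ 2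
          = ∑ l ∈ (univ.erase j).erase i, (b l) ^ 2 := by
        refine sum_congr rfl fun l hl => ?_
        rw [mem_erase, mem_erase] at hl
        rw [Function.update_of_ne hl.2.1, Function.update_of_ne hl.1]
      rw [hrest]; ring
    have hs2 : ∑ l, (b l) ^ 2 = (b i) ^ 2 + (b j) ^ 2 + ∑ l ∈ (univ.erase j).erase i, (b l) ^ 2 := by
      rw [← add_sum_erase univ _ (mem_univ j), ← add_sum_erase (univ.erase j) _ (mem_erase.2 ⟨hij, mem_univ i⟩)]
      ring
    rw [hs1, hs2, hm] at hlt
    have : 0 < (b i - b j) ^ 2 := by
      have : b i - b j ≠ 0 := sub_ne_zero.2 hne'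
      positivity
    nlinarith
  have hbk : ∀ i, b i = 1 / (k:ℝ) := by
    intro i
    have h0 := hbsum
    simp only at h0
    have : ∑ j : Fin k, b j = k * b i := by
      rw [sum_congr rfl (fun j _ => hall j i), sum_const, card_univ, Fintype.card_fin, nsmul_eq_mul]
    rw [this] at h0
    have hk' : (k:ℝ) ≠ 0 := by positivity
    field_simp
    linarith
  refine ⟨d, hdfeas, ?_⟩
  have := hdv
  simp only [hbk] at this
  exact this

end Pool.Agent.R309.HF
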