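import Mathlib
import Pool.Agent.R309.HF.Core

namespace Pool.Agent.R309.HF

open Finset

variable {k r : ℕ}

lemma perm_sum_eq (z : Fin k → ℝ) {S T : Finset (Fin k)} (h : S.card = T.card) :
    ∑ σ : Equiv.Perm (Fin k), ∏ i ∈ T, z (σ i) = ∑ σ : Equiv.Perm (Fin k), ∏ i ∈ S, z (σ i) := by
  classical
  have e : {x // x ∈ S} ≃ {x // x ∈ T} := Finset.equivOfCardEq h
  set τ : Equiv.Perm (Fin k) := Equiv.extendSubtype e with hτ
  have hmap : S.map τ.toEmbedding = T := by
    apply eq_of_subset_of_card_le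
    · intro x hx
      rw [mem_map] at hx
      obtain ⟨y, hy, rfl⟩ := hx
      exact Equiv.extendSubtype_mem e y hy
    · rw [card_map, h]
  rw [← hmap]
  simp_rw [prod_map]
  exact Fintype.sum_equiv (Equiv.mulRight τ) _ _ (fun σ => by simp)

lemma perm_sum_Fc (hrk : r ≤ k) (c : Finset (Fin k) → ℝ) (z : Fin k → ℝ) :
    (∑ σ : Equiv.Perm (Fin k), Fc r c (fun i => z (σ i))) * (k.choose r : ℝ)
      = (∑ S ∈ powersetCard r (univ : Finset (Fin k)), c S) * ((k.factorial : ℝ) * Fc r (fun _ => 1) z) := by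
  classical
  obtain ⟨S₀, hS₀⟩ : (powersetCard r (univ : Finset (Fin k))).Nonempty := by
    rw [powersetCard_nonempty]; simpa using hrk
  set E := ∑ σ : Equiv.Perm (Fin k), ∏ i ∈ S₀, z (σ i) with hE
  rw [mem_powersetCard] at hS₀
  have hEall : ∀ S ∈ powersetCard r (univ : Finset (Fin k)),
      ∑ σ : Equiv.Perm (Fin k), ∏ i ∈ S, z (σ i) = E := by
    intro S hS
    rw [mem_powersetCard] at hS
    exact perm_sum_eq z (by rw [hS₀.2, hS.2])
  have h1 : ∀ c : Finset (Fin k) → ℝ, ∑ σ : Equiv.Perm (Fin k), Fc r c (fun i => z (σ i))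
      = (∑ S ∈ powersetCard r (univ : Finset (Fin k)), c S) * E := by
    intro c
    unfold Fc
    rw [sum_comm, sum_mul]
    refine sum_congr rfl fun S hS => ?_
    rw [← mul_sum, hEall S hS]
  have h2 : (k.factorial : ℝ) * Fc r (fun _ => 1) z = (k.choose r : ℝ) * E := by
    have h3 := h1 (fun _ => 1)
    rw [sum_const, card_powersetCard, card_univ, Fintype.card_fin, nsmul_eq_mul, mul_one] at h3
    rw [← h3]
    have h4 : ∀ σ : Equiv.Perm (Fin k), Fc r (fun _ => (1:ℝ)) (fun i => z (σ i)) = Fc r (fun _ => 1) z := by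
      intro σ
      have := Fc_perm (r := r) (fun _ => (1:ℝ)) σ.symm z
      simpa using this.symm
    simp_rw [h4]
    rw [sum_const, card_univ, Fintype.card_perm, Fintype.card_fin, nsmul_eq_mul]
  rw [h1 c, h2]; ring

/-- symmetrization over all permutations at the uniform point -/
theorem symmetrize (hrk : r ≤ k) {p L s v u : ℝ} (c : Finset (Fin k) → ℝ)
    (hc : ∀ z, -(L * (N p z) ^ s) ≤ Fc r c z) (hv : v ≤ Fc r c (fun _ => u)) :
    ∃ W : ℝ, (∀ z : Fin k → ℝ, -(L * (N p z) ^ s) ≤ W * Fc r (fun _ => 1) z) ∧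
      v ≤ W * Fc r (fun _ => (1:ℝ)) (fun _ : Fin k => u) := by
  have hch : (0:ℝ) < (k.choose r : ℝ) := by exact_mod_cast Nat.choose_pos hrk
  have hf : (0:ℝ) < (k.factorial : ℝ) := by exact_mod_cast Nat.factorial_pos k
  refine ⟨(∑ S ∈ powersetCard r (univ : Finset (Fin k)), c S) / (k.choose r : ℝ), ?_, ?_⟩
  · intro z
    have h1 := perm_sum_Fc hrk c z
    have h2 : (k.factorial : ℝ) * (-(L * (N p z) ^ s)) ≤ ∑ σ : Equiv.Perm (Fin k), Fc r c (fun i => z (σ i)) := by
      have : (k.factorial : ℝ) * (-(L * (N p z) ^ s)) = ∑ _σ : Equiv.Perm (Fin k), (-(L * (N p z) ^ s)) := by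
        rw [sum_const, card_univ, Fintype.card_perm, Fintype.card_fin, nsmul_eq_mul]
      rw [this]
      refine sum_le_sum fun σ _ => ?_
      have := hc (fun i => z (σ i))
      rwa [N_perm] at this
    have h3 : ∑ σ : Equiv.Perm (Fin k), Fc r c (fun i => z (σ i))
        = (k.factorial : ℝ) * ((∑ S ∈ powersetCard r (univ : Finset (Fin k)), c S) / (k.choose r : ℝ) * Fc r (fun _ => 1) z) := by
      field_simp
      linarith
    rw [h3] at h2
    exact le_of_mul_le_mul_left h2 hf
  · have h1 : Fc r c (fun _ => u) = (∑ S ∈ powersetCard r (univ : Finset (Fin k)), c S) * u ^ r := by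
      unfold Fc
      rw [sum_mul]
      refine sum_congr rfl fun S hS => ?_
      rw [mem_powersetCard] at hS
      rw [prod_const, hS.2]
    have h2 : Fc r (fun _ => (1:ℝ)) (fun _ : Fin k => u) = (k.choose r : ℝ) * u ^ r := by
      unfold Fc
      rw [sum_congr rfl (fun S hS => by
        rw [prod_const, (mem_powersetCard.1 hS).2, one_mul] : ∀ S ∈ powersetCard r (univ : Finset (Fin k)), (1:ℝ) * ∏ _i ∈ S, u = u ^ r),
        sum_const, card_powersetCard, card_univ, Fintype.card_fin, nsmul_eq_mul]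
    rw [h2]
    rw [h1] at hv
    have : (∑ S ∈ powersetCard r (univ : Finset (Fin k)), c S) / (k.choose r : ℝ) * ((k.choose r : ℝ) * u ^ r)
        = (∑ S ∈ powersetCard r (univ : Finset (Fin k)), c S) * u ^ r := by
      field_simp
    rw [this]; exact hv

end Pool.Agent.R309.HF
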